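import Mathlib

/-!
Quadratic algebras, linear resolutions of the trivial module, Koszul algebras and their
Betti numbers.
-/

namespace Pool.Agent.TH884.Kz

open CategoryTheory Matrix

universe u

/-- Data of a quadratic algebra `T(V)/(R)`: the space `V = k^m` with basis `x_0, ..., x_(m-1)` and
a subspace `R` of `V ⊗ V`; a tensor `∑ c i j • x_i ⊗ x_j` is written as the matrix `c`. -/
structure QuadData (k : Type u) [Field k] where
  /-- the dimension of `V` -/
  m : ℕ
  /-- the space of relations -/
  R : Submodule k (Matrix (Fin m) (Fin m) k)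

variable {k : Type u} [Field k]

/-- The element `∑ c i j • x_i x_j` of the free algebra. -/
noncomputable def quadTensor {m : ℕ} (c : Matrix (Fin m) (Fin m) k) : FreeAlgebra k (Fin m) :=
  ∑ i, ∑ j, c i j • (FreeAlgebra.ι k i * FreeAlgebra.ι k j)

namespace QuadData

variable (Q : QuadData k)

/-- The relations: every tensor in `R` is set equal to zero. -/
def Rel (a b : FreeAlgebra k (Fin Q.m)) : Prop := ∃ c ∈ Q.R, a = quadTensor c ∧ b = 0

/-- The quadratic algebra `A = T(V)/(R)`. -/
abbrev Alg : Type u := RingQuot Q.Rel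

noncomputable instance (priority := high) instRing : Ring Q.Alg := RingQuot.instRing Q.Rel

noncomputable instance (priority := high) instAlgebra : Algebra k Q.Alg :=
  RingQuot.instAlgebra Q.Rel

/-- The quotient map `T(V) → A`. -/
noncomputable def quot : FreeAlgebra k (Fin Q.m) →ₐ[k] Q.Alg := RingQuot.mkAlgHom k Q.Rel

/-- The generator `x_i` of `A`. -/
noncomputable def gen (i : Fin Q.m) : Q.Alg := Q.quot (FreeAlgebra.ι k i)

/-- The degree one part `A_1`, the image of `V` in `A`. -/
noncomputable def degOne : Submodule k Q.Alg := Submodule.span k (Set.range Q.gen)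

theorem lift_aux {B : Type*} [Ring B] [Algebra k B] (f : Fin Q.m → B)
    (hf : ∀ c ∈ Q.R, ∑ i, ∑ j, c i j • (f i * f j) = 0) (a b : FreeAlgebra k (Fin Q.m))
    (h : Q.Rel a b) : FreeAlgebra.lift k f a = FreeAlgebra.lift k f b := by
  obtain ⟨c, hc, rfl, rfl⟩ := h
  simp only [quadTensor, map_sum, map_smul, map_mul, FreeAlgebra.lift_ι_apply, map_zero]
  exact hf c hc

/-- The algebra homomorphism out of `A` given by the images of the generators. -/
noncomputable def lift {B : Type*} [Ring B] [Algebra k B] (f : Fin Q.m → B)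
    (hf : ∀ c ∈ Q.R, ∑ i, ∑ j, c i j • (f i * f j) = 0) : Q.Alg →ₐ[k] B :=
  RingQuot.liftAlgHom k ⟨FreeAlgebra.lift k f, Q.lift_aux f hf⟩

@[simp] theorem lift_gen {B : Type*} [Ring B] [Algebra k B] (f : Fin Q.m → B)
    (hf : ∀ c ∈ Q.R, ∑ i, ∑ j, c i j • (f i * f j) = 0) (i : Fin Q.m) :
    Q.lift f hf (Q.gen i) = f i := by
  refine (RingQuot.liftAlgHom_mkAlgHom_apply k (A := FreeAlgebra k (Fin Q.m)) _ _ _).trans ?_
  rw [FreeAlgebra.lift_ι_apply]

/-- The augmentation `A → k`, sending all generators to zero. -/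
noncomputable def aug : Q.Alg →ₐ[k] k := Q.lift (fun _ => 0) (by simp)

/-- The trivial left `A`-module `k`. -/
noncomputable def triv : ModuleCat.{u} Q.Alg :=
  (ModuleCat.restrictScalars Q.aug.toRingHom).obj (ModuleCat.of k k)

/-- The Betti numbers `b_i(A) = dim_k Ext^i_A(k, k)`. -/
noncomputable def betti (i : ℕ) : ℕ := Module.finrank k (Abelian.Ext Q.triv Q.triv i)

end QuadData

/-- A linear graded free resolution
`... → A(-2)^(ι 2) → A(-1)^(ι 1) → A^(ι 0) = A → k → 0` of the trivial left module `k`:
the `i`-th term is the free left module on the finite set `ι i`, generated in degree `i`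
(so that the differentials are matrices `d i` with entries in `A_1`, acting on row vectors from the
right), and the sequence is exact. -/
structure LinearResolution (Q : QuadData k) where
  /-- the bases of the free modules -/
  ι : ℕ → Type
  [fin : ∀ i, Fintype (ι i)]
  /-- the differentials -/
  d : ∀ i, Matrix (ι (i + 1)) (ι i) Q.Alg
  linear : ∀ i a b, d i a b ∈ Q.degOne
  card_zero : Fintype.card (ι 0) = 1
  exact_zero : ∀ v : ι 0 → Q.Alg, (∀ a, Q.aug (v a) = 0) ↔ ∃ w, w ᵥ* d 0 = v
  exact : ∀ i, ∀ v : ι (i + 1) → Q.Alg, v ᵥ* d i = 0 ↔ ∃ w, w ᵥ* d (i + 1) = v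

attribute [instance] LinearResolution.fin

/-- The quadratic algebra `T(V)/(R)` is Koszul: the trivial module has a linear free resolution. -/
def QuadData.IsKoszul (Q : QuadData k) : Prop := Nonempty (LinearResolution Q)

end Pool.Agent.TH884.Kz
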