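import Pool.Agent.TH884.Kz.OneSided

/-!
A degree argument, and the construction of linear resolutions of length three.
-/

namespace Pool.Agent.TH884.Kz

open Matrix Polynomial

universe u

variable {k : Type u} [Field k]

namespace QuadData

variable (Q : QuadData k)

/-- The grading, as a coaction: `x_i ↦ x_i T`. -/
noncomputable def deg : Q.Alg →ₐ[k] Q.Alg[X] :=
  Q.lift (fun i => C (Q.gen i) * X) (by
    intro c hc
    have h := Q.rel_eq_zero hc
    have h2 : ∀ i j, c i j • (C (Q.gen i) * X * (C (Q.gen j) * X)) =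
        C (c i j • (Q.gen i * Q.gen j)) * X ^ 2 := by
      intro i j
      rw [← smul_C, smul_mul_assoc, C_mul, mul_assoc, ← mul_assoc X, X_mul_C, mul_assoc (C _), ← pow_two,
        ← mul_assoc]
    simp only [h2, ← Finset.sum_mul, ← map_sum]
    rw [h, map_zero, zero_mul])

theorem deg_gen (i : Fin Q.m) : Q.deg (Q.gen i) = C (Q.gen i) * X := Q.lift_gen _ _ i

theorem deg_lin (v : Fin Q.m → k) : Q.deg (Q.lin v) = C (Q.lin v) * X := by
  rw [lin, map_sum, map_sum, Finset.sum_mul]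
  refine Finset.sum_congr rfl fun i _ => ?_
  rw [map_smul, deg_gen, ← smul_mul_assoc, smul_C]

theorem eval_deg (a : Q.Alg) :
    eval₂RingHom' (RingHom.id Q.Alg) 1 (fun _ => Commute.one_right _) (Q.deg a) = a := by
  induction a using Q.alg_induction with
  | hr r =>
    rw [AlgHom.commutes, Polynomial.algebraMap_apply]
    simp [eval₂RingHom']
  | hg i => rw [deg_gen]; simp [eval₂RingHom']
  | hmul a b ha hb => rw [map_mul, map_mul, ha, hb]
  | hadd a b ha hb => rw [map_add, map_add, ha, hb]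

theorem eq_zero_of_deg {a : Q.Alg} (h : Q.deg a = 0) : a = 0 := by
  have := Q.eval_deg a
  rw [h, map_zero] at this
  exact this.symm

/-- Descent: a set of elements each of which is a multiple of a linear form by an element of
the same set consists of zero only. -/
theorem descent (J : Q.Alg → Prop) (hJ : ∀ q, J q → ∃ q' v, J q' ∧ q = q' * Q.lin v) (q : Q.Alg)
    (hq : J q) : q = 0 := by
  apply Q.eq_zero_of_deg
  have h : ∀ n, ∀ q, J q → (Q.deg q).coeff n = 0 := by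
    intro n
    induction n with
    | zero =>
      intro q hq
      obtain ⟨q', v, _, rfl⟩ := hJ q hq
      rw [map_mul, deg_lin, ← mul_assoc, coeff_mul_X_zero]
    | succ n ih =>
      intro q hq
      obtain ⟨q', v, hq', rfl⟩ := hJ q hq
      rw [map_mul, deg_lin, ← mul_assoc, coeff_mul_X, coeff_mul_C, ih q' hq', zero_mul]
  ext n
  rw [h n q hq, coeff_zero]

end QuadData

/-- The index types of a resolution of length three. -/
def ι3 (a₀ a₁ a₂ a₃ : Type) : ℕ → Type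
  | 0 => a₀
  | 1 => a₁
  | 2 => a₂
  | 3 => a₃
  | _ + 4 => PEmpty

/-- The index types are finite. -/
@[instance_reducible] def ι3Fintype (a₀ a₁ a₂ a₃ : Type) [Fintype a₀] [Fintype a₁] [Fintype a₂] [Fintype a₃] :
    ∀ n, Fintype (ι3 a₀ a₁ a₂ a₃ n)
  | 0 => inferInstanceAs (Fintype a₀)
  | 1 => inferInstanceAs (Fintype a₁)
  | 2 => inferInstanceAs (Fintype a₂)
  | 3 => inferInstanceAs (Fintype a₃)
  | _ + 4 => inferInstanceAs (Fintype PEmpty)

theorem exact_end {A : Type u} [Ring A] {a₃ b : Type} [Fintype a₃] (D : Matrix a₃ b A)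
    (h : ∀ v : a₃ → A, v ᵥ* D = 0 → v = 0) (v : a₃ → A) :
    v ᵥ* D = 0 ↔ ∃ w : PEmpty → A, w ᵥ* (0 : Matrix PEmpty a₃ A) = v := by
  constructor
  · intro hv
    have := h v hv
    subst this
    exact ⟨0, Matrix.zero_vecMul _⟩
  · rintro ⟨w, rfl⟩
    rw [Matrix.vecMul_zero, Matrix.zero_vecMul]

theorem exact_empty {A : Type u} [Ring A] {b : Type} (D : Matrix PEmpty b A) (v : PEmpty → A) :
    v ᵥ* D = 0 ↔ ∃ w : PEmpty → A, w ᵥ* (0 : Matrix PEmpty PEmpty A) = v := by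
  constructor
  · intro _
    exact ⟨0, funext fun x => x.elim⟩
  · intro _
    have : v = 0 := funext fun x => x.elim
    rw [this, Matrix.zero_vecMul]

/-- A linear resolution of length three. -/
noncomputable def LinearResolution.mk3 (Q : QuadData k) {a₀ a₁ a₂ a₃ : Type} [Fintype a₀] [Fintype a₁]
    [Fintype a₂] [Fintype a₃] (D₀ : Matrix a₁ a₀ Q.Alg) (D₁ : Matrix a₂ a₁ Q.Alg)
    (D₂ : Matrix a₃ a₂ Q.Alg) (h₀ : ∀ a b, D₀ a b ∈ Q.degOne) (h₁ : ∀ a b, D₁ a b ∈ Q.degOne)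
    (h₂ : ∀ a b, D₂ a b ∈ Q.degOne) (hc : Fintype.card a₀ = 1)
    (e₀ : ∀ v : a₀ → Q.Alg, (∀ a, Q.aug (v a) = 0) ↔ ∃ w, w ᵥ* D₀ = v)
    (e₁ : ∀ v : a₁ → Q.Alg, v ᵥ* D₀ = 0 ↔ ∃ w, w ᵥ* D₁ = v)
    (e₂ : ∀ v : a₂ → Q.Alg, v ᵥ* D₁ = 0 ↔ ∃ w, w ᵥ* D₂ = v)
    (e₃ : ∀ v : a₃ → Q.Alg, v ᵥ* D₂ = 0 → v = 0) : LinearResolution Q where
  ι := ι3 a₀ a₁ a₂ a₃
  fin := ι3Fintype a₀ a₁ a₂ a₃
  d := fun n => match n with
    | 0 => D₀
    | 1 => D₁
    | 2 => D₂
    | _ + 3 => 0
  linear := fun n => match n with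
    | 0 => h₀
    | 1 => h₁
    | 2 => h₂
    | _ + 3 => fun _ _ => Submodule.zero_mem _
  card_zero := hc
  exact_zero := e₀
  exact := fun n => match n with
    | 0 => e₁
    | 1 => e₂
    | 2 => exact_end D₂ e₃
    | _ + 3 => exact_empty _

end Pool.Agent.TH884.Kz
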