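import Pool.Agent.TH884.Kz.Defs

/-!
The Betti numbers are the ranks in a linear resolution.
-/

namespace Pool.Agent.TH884.Kz

open CategoryTheory Abelian Matrix Limits

universe u

variable {k : Type u} [Field k]

section general

variable {A : Type u} [Ring A] [Algebra k A]

theorem ext_shift {S : ShortComplex (ModuleCat.{u} A)} (hS : S.ShortExact) [Projective S.X₂]
    {Y : ModuleCat.{u} A} (hmin : ∀ g : S.X₂ ⟶ Y, S.f ≫ g = 0) (n : ℕ) :
    Nonempty (Ext S.X₁ Y n ≃ₗ[k] Ext S.X₃ Y (n + 1)) := by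
  refine ⟨LinearEquiv.ofBijective (hS.extClass.precompOfLinear k Y (add_comm 1 n)) ⟨?_, ?_⟩⟩
  · rw [← LinearMap.ker_eq_bot, LinearMap.ker_eq_bot']
    intro x hx
    obtain ⟨y, rfl⟩ := Ext.contravariant_sequence_exact₁ hS Y x (add_comm 1 n) hx
    cases n with
    | zero =>
      obtain ⟨g, rfl⟩ := Ext.addEquiv₀.symm.surjective y
      change (Ext.mk₀ S.f).comp (Ext.mk₀ g) _ = 0
      rw [Ext.mk₀_comp_mk₀, hmin g, Ext.mk₀_zero]
    | succ n => rw [Ext.eq_zero_of_projective y, Ext.comp_zero]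
  · intro x
    exact Ext.contravariant_sequence_exact₃ hS Y x (Ext.eq_zero_of_projective _) (add_comm 1 n)

theorem hom_shift {S : ShortComplex (ModuleCat.{u} A)} (hS : S.ShortExact)
    {Y : ModuleCat.{u} A} (hmin : ∀ g : S.X₂ ⟶ Y, S.f ≫ g = 0) :
    Nonempty ((S.X₃ ⟶ Y) ≃ₗ[k] (S.X₂ ⟶ Y)) := by
  have := hS.epi_g
  refine ⟨LinearEquiv.ofBijective (Linear.leftComp k Y S.g) ⟨?_, ?_⟩⟩
  · intro a b h
    exact (cancel_epi S.g).1 h
  · intro g
    exact ⟨hS.exact.desc g (hmin g), hS.exact.g_desc g (hmin g)⟩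

end general

variable {Q : QuadData k}

open ModuleCat in
/-- The trivial module is `k` as a vector space. -/
def trivEquiv : Q.triv ≃ₗ[k] k where
  toFun := fun x => (show k from x)
  invFun := fun x => (show Q.triv from x)
  left_inv := fun _ => rfl
  right_inv := fun _ => rfl
  map_add' := fun _ _ => rfl
  map_smul' := fun r x => by
    change Q.aug (algebraMap k Q.Alg r) * (show k from x) = r * (show k from x)
    rw [AlgHom.commutes]; rfl

open ModuleCat in
/-- Maps from a free module to the trivial module. -/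
theorem hom_equiv (ι : Type) [Fintype ι] :
    Nonempty ((ModuleCat.of Q.Alg (ι → Q.Alg) ⟶ Q.triv) ≃ₗ[k] (ι → k)) := by
  classical
  let e1 : (ModuleCat.of Q.Alg (ι → Q.Alg) ⟶ Q.triv) ≃ₗ[k] ((ι → Q.Alg) →ₗ[Q.Alg] Q.triv) :=
    ModuleCat.homLinearEquiv
  let e2 : (ι → Q.triv) ≃ₗ[k] ((ι → Q.Alg) →ₗ[Q.Alg] Q.triv) := (Pi.basisFun Q.Alg ι).constr k
  exact ⟨(e1.trans e2.symm).trans (LinearEquiv.piCongrRight fun _ => trivEquiv)⟩

theorem aug_gen (i : Fin Q.m) : Q.aug (Q.gen i) = 0 := by
  rw [QuadData.aug, QuadData.lift_gen]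

theorem aug_of_mem_degOne {x : Q.Alg} (hx : x ∈ Q.degOne) : Q.aug x = 0 := by
  induction hx using Submodule.span_induction with
  | mem x h => obtain ⟨i, rfl⟩ := h; exact aug_gen i
  | zero => exact map_zero _
  | add x y _ _ hx hy => rw [map_add, hx, hy, add_zero]
  | smul a x _ hx => rw [map_smul, hx, smul_zero]

theorem triv_smul (a : Q.Alg) (x : Q.triv) :
    a • x = (show Q.triv from (Q.aug a * (show k from x) : k)) := rfl

/-- A linear map to the trivial module kills vectors with entries in the augmentation ideal. -/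
theorem map_eq_zero_of_aug {ι : Type} [Fintype ι] (g : (ι → Q.Alg) →ₗ[Q.Alg] Q.triv)
    (v : ι → Q.Alg) (hv : ∀ a, Q.aug (v a) = 0) : g v = 0 := by
  classical
  rw [LinearMap.pi_apply_eq_sum_univ g v]
  apply Finset.sum_eq_zero
  intro a _
  rw [triv_smul, hv a, zero_mul]
  rfl

theorem ext_equiv (res : LinearResolution Q) (n : ℕ) : ∀ (i : ℕ) (N : Type u) [AddCommGroup N]
    [Module Q.Alg N] (f : (res.ι i → Q.Alg) →ₗ[Q.Alg] N), Function.Surjective f →
    (∀ v, f v = 0 ↔ ∃ w, w ᵥ* res.d i = v) →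
    Nonempty (Ext (ModuleCat.of Q.Alg N) Q.triv n ≃ₗ[k] (res.ι (i + n) → k)) := by
  have hmin : ∀ (i : ℕ) (N : Type u) [AddCommGroup N]
      [Module Q.Alg N] (f : (res.ι i → Q.Alg) →ₗ[Q.Alg] N),
      (∀ v, f v = 0 ↔ ∃ w, w ᵥ* res.d i = v) →
      ∀ g : f.shortComplexKer.X₂ ⟶ Q.triv, f.shortComplexKer.f ≫ g = 0 := by
    intro i N _ _ f hk g
    ext x
    obtain ⟨w, hw⟩ := (hk x.1).1 x.2
    change g.hom x.1 = 0
    apply map_eq_zero_of_aug g.hom
    intro a
    rw [← hw]
    simp only [vecMul, dotProduct, map_sum, map_mul]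
    exact Finset.sum_eq_zero fun b _ => by rw [aug_of_mem_degOne (res.linear i b a), mul_zero]
  induction n with
  | zero =>
    intro i N _ _ f hf hk
    have hS := LinearMap.shortExact_shortComplexKer hf
    obtain ⟨e⟩ := hom_shift (k := k) hS (hmin i N f hk)
    have e0 : Ext (ModuleCat.of Q.Alg N) Q.triv 0 ≃ₗ[k] (ModuleCat.of Q.Alg N ⟶ Q.triv) :=
      Ext.linearEquiv₀
    obtain ⟨e2⟩ := hom_equiv (Q := Q) (res.ι i)
    exact ⟨(e0.trans e).trans e2⟩
  | succ n ih =>
    intro i N _ _ f hf hk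
    have hS := LinearMap.shortExact_shortComplexKer hf
    obtain ⟨e⟩ := ext_shift (k := k) hS (hmin i N f hk) n
    have e' : Ext (ModuleCat.of Q.Alg (LinearMap.ker f)) Q.triv n ≃ₗ[k]
      Ext (ModuleCat.of Q.Alg N) Q.triv (n + 1) := e
    have h1 : ∀ v : res.ι (i + 1) → Q.Alg, (res.d i).vecMulLinear v ∈ LinearMap.ker f := by
      intro v
      rw [LinearMap.mem_ker, hk]
      exact ⟨v, rfl⟩
    have := ih (i + 1) (LinearMap.ker f) ((res.d i).vecMulLinear.codRestrict (LinearMap.ker f) h1)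
      (by
        rintro ⟨v, hv⟩
        obtain ⟨w, hw⟩ := (hk v).1 hv
        exact ⟨w, Subtype.ext hw⟩)
      (by
        intro v
        rw [← res.exact i v]
        constructor
        · intro h
          exact congrArg Subtype.val h
        · intro h
          exact Subtype.ext h)
    have h2 : i + 1 + n = i + (n + 1) := by omega
    rw [h2] at this
    obtain ⟨e2⟩ := this
    exact ⟨e'.symm.trans e2⟩

/-- `Ext^n_A(k, k)` is the space of functions on the basis of the `n`-th free module in a linear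
resolution. -/
theorem ext_triv_equiv (res : LinearResolution Q) (n : ℕ) :
    Nonempty (Ext Q.triv Q.triv n ≃ₗ[k] (res.ι n → k)) := by
  obtain ⟨a₀, ha₀⟩ := Fintype.card_eq_one_iff.1 res.card_zero
  let f : (res.ι 0 → Q.Alg) →ₗ[Q.Alg] Q.triv :=
    { toFun := fun v => (show Q.triv from (Q.aug (v a₀) : k))
      map_add' := fun v w => by
        change Q.aug (v a₀ + w a₀) = Q.aug (v a₀) + Q.aug (w a₀)
        exact map_add _ _ _
      map_smul' := fun c v => by
        change Q.aug (c * v a₀) = Q.aug c * Q.aug (v a₀)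
        exact map_mul _ _ _ }
  have h := ext_equiv res n 0 Q.triv f
    (by
      intro x
      refine ⟨fun _ => algebraMap k Q.Alg (show k from x), ?_⟩
      change Q.aug (algebraMap k Q.Alg (show k from x)) = (show k from x)
      exact AlgHom.commutes _ _)
    (by
      intro v
      rw [← res.exact_zero v]
      change Q.aug (v a₀) = 0 ↔ _
      constructor
      · intro h a
        rw [ha₀ a, h]
      · intro h
        exact h a₀)
  rw [zero_add] at h
  exact h

/-- The Betti numbers of a Koszul algebra are the ranks in a linear resolution. -/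
theorem betti_eq (res : LinearResolution Q) (n : ℕ) : Q.betti n = Fintype.card (res.ι n) := by
  obtain ⟨e⟩ := ext_triv_equiv res n
  rw [QuadData.betti, e.finrank_eq, Module.finrank_pi]

/-- The spaces `Ext^n_A(k, k)` are finite-dimensional for a Koszul algebra. -/
theorem finite_ext (hQ : Q.IsKoszul) (n : ℕ) : Module.Finite k (Ext Q.triv Q.triv n) := by
  obtain ⟨res⟩ := hQ
  obtain ⟨e⟩ := ext_triv_equiv res n
  exact Module.Finite.equiv e.symm

end Pool.Agent.TH884.Kz
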