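import Pool.Agent.TH884.Kz.Degree
import Pool.Agent.TH884.Kz.ExtRank

/-!
A Koszul algebra with Betti numbers 1, 7, 17, 16.
-/

namespace Pool.Agent.TH884.Kz.Example

open Matrix

universe u

/-- The number of relations `l * x_j = 0` for each `j`. -/
def sz : Fin 7 → ℕ := ![2, 2, 2, 2, 0, 4, 5]

/-- The supports of the linear forms. -/
def supp (j t a : ℕ) : Bool :=
  if j = 0 ∨ j = 2 then (if t = 0 then a = 4 else (a = 5 ∨ a = 0 ∨ a = 1))
  else if j = 1 ∨ j = 3 then (if t = 0 then a = 4 else (a = 5 ∨ a = 2 ∨ a = 3))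
  else a = t

/-- The data of the example. -/
abbrev data (k : Type u) [Field k] : OSData k where
  m := 7
  s := sz
  l := fun j t a => if supp j t a then 1 else 0

variable (k : Type u) [Field k]

abbrev A : Type u := (data k).quad.Alg

/-- The generators. -/
noncomputable abbrev x (i : Fin 7) : A k := (data k).quad.gen i

/-- The linear form with given support. -/
noncomputable def form (j t : ℕ) : A k := (data k).quad.lin (fun a => if supp j t a then 1 else 0)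

theorem form_eq (j t : ℕ) : form k j t = ∑ a : Fin 7, if supp j t a then x k a else 0 := by
  unfold form QuadData.lin
  refine Finset.sum_congr rfl fun a _ => ?_
  change (if supp j t a then (1 : k) else 0) • _ = _
  split_ifs
  · rw [one_smul]
  · rw [zero_smul]

theorem lin_eq (j : Fin 7) (t : Fin (sz j)) :
    (data k).quad.lin ((data k).l j t) = form k j t := rfl

/-- The two elements whose left multiples annihilate `x_t`, for `t < 4`. -/
noncomputable def rel (t : Fin 4) (y : Fin 2) : A k :=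
  if y = 0 then x k 4 else if t = 0 ∨ t = 2 then x k 5 + x k 0 + x k 1 else x k 5 + x k 2 + x k 3

/-- The linear form `x_0 + x_1`. -/
theorem lin01 : (data k).quad.lin (fun a => if a = 0 ∨ a = 1 then 1 else 0) = x k 0 + x k 1 := by
  unfold QuadData.lin
  change ∑ a : Fin 7, _ = _
  simp [Fin.sum_univ_seven]

theorem form_lt (t : Fin 4) (y : Fin 2) : form k t y = rel k t y := by
  rw [form_eq, Fin.sum_univ_seven]
  fin_cases t <;> fin_cases y <;> simp [supp, rel] <;> abel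

theorem form_ge {j t : ℕ} (hj : 5 ≤ j) (ht : t < 7) : form k j t = x k ⟨t, ht⟩ := by
  have h0 : j ≠ 0 := by omega
  have h1 : j ≠ 1 := by omega
  have h2 : j ≠ 2 := by omega
  have h3 : j ≠ 3 := by omega
  rw [form_eq, Finset.sum_eq_single ⟨t, ht⟩]
  · simp [supp, h0, h1, h2, h3]
  · intro b _ hb
    have h4 : (b : ℕ) ≠ t := fun h => hb (Fin.ext h)
    simp [supp, h0, h1, h2, h3, h4]
  · simp

variable {k}

/-- Elements `q` with `q x_5 = 0`, `q x_0 = 0` and `q x_1 = 0`. -/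
def J (q : A k) : Prop := q ∈ (data k).ann 5 ∧ q ∈ (data k).ann 0 ∧ q ∈ (data k).ann 1

theorem mem0 (b : A k) : b ∈ (data k).ann 0 ↔
    ∃ p q : A k, p * x k 4 + q * (x k 5 + x k 0 + x k 1) = b := by
  rw [OSData.mem_ann_iff]
  have h0 : (data k).quad.lin ((data k).l 0 (0 : Fin 2)) = x k 4 :=
    (form_lt k 0 0).trans (by simp [rel])
  have h1 : (data k).quad.lin ((data k).l 0 (1 : Fin 2)) = x k 5 + x k 0 + x k 1 :=
    (form_lt k 0 1).trans (by simp [rel])
  constructor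
  · rintro ⟨c, rfl⟩
    refine ⟨c (0 : Fin 2), c (1 : Fin 2), ?_⟩
    change _ = ∑ t : Fin 2, _
    rw [Fin.sum_univ_two, h0, h1]
  · rintro ⟨p, q, rfl⟩
    refine ⟨(![p, q] : Fin 2 → A k), ?_⟩
    change ∑ t : Fin 2, _ = _
    rw [Fin.sum_univ_two, h0, h1]
    rfl

theorem mem1 (b : A k) : b ∈ (data k).ann 1 ↔
    ∃ p q : A k, p * x k 4 + q * (x k 5 + x k 2 + x k 3) = b := by
  rw [OSData.mem_ann_iff]
  have h0 : (data k).quad.lin ((data k).l 1 (0 : Fin 2)) = x k 4 :=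
    (form_lt k 1 0).trans (by simp [rel])
  have h1 : (data k).quad.lin ((data k).l 1 (1 : Fin 2)) = x k 5 + x k 2 + x k 3 :=
    (form_lt k 1 1).trans (by simp [rel])
  constructor
  · rintro ⟨c, rfl⟩
    refine ⟨c (0 : Fin 2), c (1 : Fin 2), ?_⟩
    change _ = ∑ t : Fin 2, _
    rw [Fin.sum_univ_two, h0, h1]
  · rintro ⟨p, q, rfl⟩
    refine ⟨(![p, q] : Fin 2 → A k), ?_⟩
    change ∑ t : Fin 2, _ = _
    rw [Fin.sum_univ_two, h0, h1]
    rfl

theorem mem2 (b : A k) : b ∈ (data k).ann 2 ↔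
    ∃ p q : A k, p * x k 4 + q * (x k 5 + x k 0 + x k 1) = b := by
  rw [OSData.mem_ann_iff]
  have h0 : (data k).quad.lin ((data k).l 2 (0 : Fin 2)) = x k 4 :=
    (form_lt k 2 0).trans (by simp [rel])
  have h1 : (data k).quad.lin ((data k).l 2 (1 : Fin 2)) = x k 5 + x k 0 + x k 1 :=
    (form_lt k 2 1).trans (by simp [rel])
  constructor
  · rintro ⟨c, rfl⟩
    refine ⟨c (0 : Fin 2), c (1 : Fin 2), ?_⟩
    change _ = ∑ t : Fin 2, _
    rw [Fin.sum_univ_two, h0, h1]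
  · rintro ⟨p, q, rfl⟩
    refine ⟨(![p, q] : Fin 2 → A k), ?_⟩
    change ∑ t : Fin 2, _ = _
    rw [Fin.sum_univ_two, h0, h1]
    rfl

theorem mem3 (b : A k) : b ∈ (data k).ann 3 ↔
    ∃ p q : A k, p * x k 4 + q * (x k 5 + x k 2 + x k 3) = b := by
  rw [OSData.mem_ann_iff]
  have h0 : (data k).quad.lin ((data k).l 3 (0 : Fin 2)) = x k 4 :=
    (form_lt k 3 0).trans (by simp [rel])
  have h1 : (data k).quad.lin ((data k).l 3 (1 : Fin 2)) = x k 5 + x k 2 + x k 3 :=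
    (form_lt k 3 1).trans (by simp [rel])
  constructor
  · rintro ⟨c, rfl⟩
    refine ⟨c (0 : Fin 2), c (1 : Fin 2), ?_⟩
    change _ = ∑ t : Fin 2, _
    rw [Fin.sum_univ_two, h0, h1]
  · rintro ⟨p, q, rfl⟩
    refine ⟨(![p, q] : Fin 2 → A k), ?_⟩
    change ∑ t : Fin 2, _ = _
    rw [Fin.sum_univ_two, h0, h1]
    rfl

theorem mem4 (b : A k) : b ∈ (data k).ann 4 ↔ b = 0 := by
  rw [OSData.mem_ann_iff]
  constructor
  · rintro ⟨c, rfl⟩
    exact Finset.sum_eq_zero fun t _ => (Fin.elim0 (show Fin 0 from t))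
  · rintro rfl
    exact ⟨0, by simp⟩

theorem mem5 (b : A k) : b ∈ (data k).ann 5 ↔
    ∃ c : Fin 4 → A k, c 0 * x k 0 + c 1 * x k 1 + c 2 * x k 2 + c 3 * x k 3 = b := by
  rw [OSData.mem_ann_iff]
  have h : ∀ t : Fin 4, (data k).quad.lin ((data k).l 5 (t : Fin 4)) = x k (Fin.castLE (by omega) t) :=
    fun t => form_ge k (j := 5) (t := (t : ℕ)) le_rfl
      (lt_of_lt_of_le (Fin.isLt (n := 4) t) (by norm_num))
  have h2 : ∀ c : Fin 4 → A k, ∑ t : Fin 4, c t * (data k).quad.lin ((data k).l 5 (t : Fin 4)) =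
      c 0 * x k 0 + c 1 * x k 1 + c 2 * x k 2 + c 3 * x k 3 := by
    intro c
    rw [Fin.sum_univ_four, h, h, h, h]
    rfl
  constructor
  · rintro ⟨c, rfl⟩
    exact ⟨c, (h2 c).symm⟩
  · rintro ⟨c, rfl⟩
    exact ⟨c, h2 c⟩

theorem aux1 {R : Type*} [Ring R] {c0 c1 c2 c3 p r x0 x1 x2 x3 x4 x5 x6 : R}
    (h : c0 * x0 + c1 * x1 + c2 * x2 + c3 * x3 = p * x4 + r * (x5 + x0 + x1)) :
    (c0 - r) * x0 + (c1 - r) * x1 + c2 * x2 + c3 * x3 + (-p) * x4 + (-r) * x5 + 0 * x6 = 0 := by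
  refine Eq.trans ?_ (sub_eq_zero.2 h)
  simp only [mul_add, sub_mul, neg_mul, zero_mul]
  abel

theorem aux2 {R : Type*} [Ring R] {c0 c1 c2 c3 p r x0 x1 x2 x3 x4 x5 x6 : R}
    (h : c0 * x0 + c1 * x1 + c2 * x2 + c3 * x3 = p * x4 + r * (x5 + x2 + x3)) :
    c0 * x0 + c1 * x1 + (c2 - r) * x2 + (c3 - r) * x3 + (-p) * x4 + (-r) * x5 + 0 * x6 = 0 := by
  refine Eq.trans ?_ (sub_eq_zero.2 h)
  simp only [mul_add, sub_mul, neg_mul, zero_mul]
  abel

theorem aux3 {R : Type*} [Ring R] {r r' x0 x1 x2 x3 x4 x5 x6 : R}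
    (h : r * (x0 + x1) = r' * (x2 + x3)) :
    r * x0 + r * x1 + (-r') * x2 + (-r') * x3 + 0 * x4 + 0 * x5 + 0 * x6 = 0 := by
  refine Eq.trans ?_ (sub_eq_zero.2 h)
  simp only [mul_add, neg_mul, zero_mul]
  abel

/-- The key relation. -/
theorem key (b : Fin 7 → A k) (h : b 0 * x k 0 + b 1 * x k 1 + b 2 * x k 2 + b 3 * x k 3 +
    b 4 * x k 4 + b 5 * x k 5 + b 6 * x k 6 = 0) (i : Fin 7) : b i ∈ (data k).ann i := by
  refine (data k).mem_ann_of_sum b ?_ i
  exact (Fin.sum_univ_seven _).trans h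

theorem mul5 {b : A k} (hb : b ∈ (data k).ann 5) : b * x k 5 = 0 := (data k).mul_gen_of_mem hb

theorem J_eq_zero (q : A k) (hq : J q) : q = 0 := by
  refine (data k).quad.descent J ?_ q hq
  rintro q ⟨h5, h0, h1⟩
  obtain ⟨c, hc⟩ := (mem5 q).1 h5
  obtain ⟨p, r, hp⟩ := (mem0 q).1 h0
  obtain ⟨p', r', hp'⟩ := (mem1 q).1 h1
  have e1 := key ![c 0 - r, c 1 - r, c 2, c 3, -p, -r, 0] (by
    simp only [Matrix.cons_val]
    exact aux1 (hc.trans hp.symm))
  have e2 := key ![c 0, c 1, c 2 - r', c 3 - r', -p', -r', 0] (by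
    simp only [Matrix.cons_val]
    exact aux2 (hc.trans hp'.symm))
  have p0 : p = 0 := by simpa using (mem4 _).1 (e1 4)
  have p0' : p' = 0 := by simpa using (mem4 _).1 (e2 4)
  have r5 : r ∈ (data k).ann 5 := by simpa using (data k).ann 5 |>.neg_mem (e1 5)
  have r5' : r' ∈ (data k).ann 5 := by simpa using (data k).ann 5 |>.neg_mem (e2 5)
  subst p0 p0'
  have q1 : q = r * (x k 0 + x k 1) := by
    rw [← hp, zero_mul, zero_add, mul_add, mul_add, mul5 r5, zero_add, mul_add]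
  have q2 : q = r' * (x k 2 + x k 3) := by
    rw [← hp', zero_mul, zero_add, mul_add, mul_add, mul5 r5', zero_add, mul_add]
  have e3 := key ![r, r, -r', -r', 0, 0, 0] (by
    simp only [Matrix.cons_val]
    exact aux3 (q1.symm.trans q2))
  refine ⟨r, fun a => if a = 0 ∨ a = 1 then 1 else 0, ⟨r5, e3 0, e3 1⟩, ?_⟩
  rw [lin01, q1]

theorem free0 {p r : A k} (h : p * x k 4 + r * (x k 5 + x k 0 + x k 1) = 0) : p = 0 ∧ r = 0 := by
  have e := key ![r, r, 0, 0, p, r, 0] (by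
    simp only [Matrix.cons_val]
    refine Eq.trans ?_ h
    simp only [mul_add, zero_mul]
    abel)
  exact ⟨(mem4 _).1 (e 4), J_eq_zero r ⟨e 5, e 0, e 1⟩⟩

theorem free1 {p r : A k} (h : p * x k 4 + r * (x k 5 + x k 2 + x k 3) = 0) : p = 0 ∧ r = 0 := by
  have e := key ![0, 0, r, r, p, r, 0] (by
    simp only [Matrix.cons_val]
    refine Eq.trans ?_ h
    simp only [mul_add, zero_mul]
    abel)
  have h2 : r ∈ (data k).ann 2 := e 2
  have h3 : r ∈ (data k).ann 3 := e 3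
  refine ⟨(mem4 _).1 (e 4), J_eq_zero r ⟨e 5, ?_, ?_⟩⟩
  · rw [mem0, ← mem2]; exact h2
  · rw [mem1, ← mem3]; exact h3

end Pool.Agent.TH884.Kz.Example
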