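import Pool.Agent.TH884.Kz.Defs

/-!
Quadratic algebras with relations of the form `l * x_j = 0`, `l` in a given list of linear forms
depending on `j`.
-/

namespace Pool.Agent.TH884.Kz

open Matrix

universe u

variable {k : Type u} [Field k]

namespace QuadData

variable (Q : QuadData k)

theorem alg_induction {C : Q.Alg → Prop} (hr : ∀ r : k, C (algebraMap k Q.Alg r))
    (hg : ∀ i, C (Q.gen i)) (hmul : ∀ a b, C a → C b → C (a * b))
    (hadd : ∀ a b, C a → C b → C (a + b)) (a : Q.Alg) : C a := by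
  obtain ⟨x, rfl⟩ := RingQuot.mkAlgHom_surjective k Q.Rel a
  induction x using FreeAlgebra.induction with
  | grade0 r => rw [AlgHom.commutes]; exact hr r
  | grade1 i => exact hg i
  | mul a b ha hb => rw [map_mul]; exact hmul _ _ ha hb
  | add a b ha hb => rw [map_add]; exact hadd _ _ ha hb

/-- A linear form in the generators. -/
noncomputable def lin (v : Fin Q.m → k) : Q.Alg := ∑ i, v i • Q.gen i

theorem lin_mem (v : Fin Q.m → k) : Q.lin v ∈ Q.degOne :=
  Submodule.sum_mem _ fun i _ => Submodule.smul_mem _ _ (Submodule.subset_span ⟨i, rfl⟩)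

theorem gen_mem (i : Fin Q.m) : Q.gen i ∈ Q.degOne := Submodule.subset_span ⟨i, rfl⟩

theorem rel_eq_zero {c : Matrix (Fin Q.m) (Fin Q.m) k} (hc : c ∈ Q.R) :
    ∑ i, ∑ j, c i j • (Q.gen i * Q.gen j) = 0 := by
  have h : RingQuot.mkAlgHom k Q.Rel (quadTensor c) = RingQuot.mkAlgHom k Q.Rel 0 :=
    RingQuot.mkAlgHom_rel k ⟨c, hc, rfl, rfl⟩
  rw [map_zero, quadTensor] at h
  simp only [map_sum, map_smul, map_mul] at h
  exact h

end QuadData

/-- Data for relations `l * x_j = 0`. -/
structure OSData (k : Type u) [Field k] where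
  m : ℕ
  s : Fin m → ℕ
  l : ∀ j, Fin (s j) → Fin m → k

namespace OSData

variable (D : OSData k)

/-- The tensor `l ⊗ x_j`. -/
def tens {m : ℕ} (v : Fin m → k) (j : Fin m) : Matrix (Fin m) (Fin m) k :=
  fun a b => if b = j then v a else 0

/-- The quadratic algebra with the relations `l j t * x_j = 0`. -/
abbrev quad : QuadData k where
  m := D.m
  R := Submodule.span k (Set.range fun p : Σ j, Fin (D.s j) => tens (D.l p.1 p.2) p.1)

theorem sum_tens {A : Type*} [Ring A] [Algebra k A] {m : ℕ} (v : Fin m → k) (j : Fin m)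
    (f : Fin m → A) :
    ∑ a, ∑ b, tens v j a b • (f a * f b) = (∑ a, v a • f a) * f j := by
  simp only [tens, ite_smul, zero_smul, Finset.sum_ite_eq', Finset.mem_univ, if_true,
    Finset.sum_mul, smul_mul_assoc]

theorem mul_gen (j : Fin D.m) (t : Fin (D.s j)) :
    D.quad.lin (D.l j t) * D.quad.gen j = 0 := by
  have h := D.quad.rel_eq_zero (c := tens (D.l j t) j) (Submodule.subset_span ⟨⟨j, t⟩, rfl⟩)
  have h2 := sum_tens (D.l j t) j D.quad.gen
  exact h2.symm.trans h

/-- A criterion for maps out of the algebra. -/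
theorem lift_aux {B : Type*} [Ring B] [Algebra k B] (f : Fin D.m → B)
    (hf : ∀ j t, (∑ a, D.l j t a • f a) * f j = 0) :
    ∀ c ∈ D.quad.R, ∑ i, ∑ j, c i j • (f i * f j) = 0 := by
  intro c hc
  change c ∈ Submodule.span k _ at hc
  induction hc using Submodule.span_induction with
  | mem x h =>
    obtain ⟨p, rfl⟩ := h
    have := sum_tens (D.l p.1 p.2) p.1 f
    rw [hf] at this
    exact this
  | zero => simp
  | add x y _ _ hx hy =>
    simp only [Matrix.add_apply, add_smul, Finset.sum_add_distrib]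
    rw [hx, hy, add_zero]
  | smul a x _ hx =>
    simp only [Matrix.smul_apply, smul_eq_mul, mul_smul, ← Finset.smul_sum]
    rw [hx, smul_zero]

section model

variable {D}
variable {N : Fin D.m → Type*} [∀ j, AddCommGroup (N j)] [∀ j, Module D.quad.Alg (N j)]
  [∀ j, Module k (N j)] [∀ j, IsScalarTower k D.quad.Alg (N j)]

/-- The action of the generator `x_i` on the model `k × ∏ N j`. -/
noncomputable def act (u : ∀ j, N j) (i : Fin D.m) : Module.End k (k × ∀ j, N j) where
  toFun x := (0, fun j => D.quad.gen i • x.2 j + if i = j then x.1 • u j else 0)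
  map_add' x y := by
    ext j
    · simp
    · simp only [Prod.snd_add, Pi.add_apply, smul_add, Prod.fst_add]
      split_ifs
      · rw [add_smul]; abel
      · abel
  map_smul' r x := by
    ext j
    · simp
    · simp only [Prod.smul_snd, Pi.smul_apply, Prod.smul_fst, RingHom.id_apply, smul_eq_mul]
      rw [smul_add, smul_comm r]
      congr 1
      split_ifs
      · rw [mul_smul]
      · rw [smul_zero]

theorem act_apply (u : ∀ j, N j) (i : Fin D.m) (x : k × ∀ j, N j) :
    act u i x = (0, fun j => D.quad.gen i • x.2 j + if i = j then x.1 • u j else 0) := rfl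

theorem sum_act (u : ∀ j, N j) (v : Fin D.m → k) (x : ∀ j, N j) :
    (∑ a, v a • act u a) ((0 : k), x) = (0, fun j => D.quad.lin v • x j) := by
  ext j
  · simp [LinearMap.sum_apply, act_apply, Prod.fst_sum]
  · simp only [LinearMap.sum_apply, LinearMap.smul_apply, act_apply, Prod.snd_sum, Prod.smul_snd,
      Finset.sum_apply, Pi.smul_apply, zero_smul, ite_self, add_zero, QuadData.lin,
      Finset.sum_smul, smul_assoc]

theorem act_rel {u : ∀ j, N j} (hu : ∀ j t, D.quad.lin (D.l j t) • u j = 0) (j : Fin D.m)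
    (t : Fin (D.s j)) : (∑ a, D.l j t a • act u a) * act u j = 0 := by
  refine LinearMap.ext fun x => ?_
  rw [Module.End.mul_apply, act_apply, sum_act]
  refine Prod.ext rfl (funext fun i => ?_)
  change D.quad.lin (D.l j t) • (D.quad.gen j • x.2 i + if j = i then x.1 • u i else 0) = 0
  rw [smul_add, smul_smul, D.mul_gen, zero_smul, zero_add]
  split_ifs with h
  · subst h
    rw [smul_comm, hu, smul_zero]
  · rw [smul_zero]

/-- The algebra acting on the model. -/
noncomputable def rep (u : ∀ j, N j) (hu : ∀ j t, D.quad.lin (D.l j t) • u j = 0) :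
    D.quad.Alg →ₐ[k] Module.End k (k × ∀ j, N j) :=
  D.quad.lift (act u) (D.lift_aux (act u) (act_rel hu))

theorem rep_gen (u : ∀ j, N j) (hu : ∀ j t, D.quad.lin (D.l j t) • u j = 0) (i : Fin D.m) :
    rep u hu (D.quad.gen i) = act u i := D.quad.lift_gen _ _ i

theorem rep_apply_zero (u : ∀ j, N j) (hu : ∀ j t, D.quad.lin (D.l j t) • u j = 0)
    (a : D.quad.Alg) : ∀ x : ∀ j, N j, rep u hu a (0, x) = (0, fun j => a • x j) := by
  induction a using D.quad.alg_induction with
  | hr r =>
    intro x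
    rw [AlgHom.commutes, Module.algebraMap_end_apply]
    ext j
    · simp
    · simp
  | hg i =>
    intro x
    rw [rep_gen, act_apply]
    simp
  | hmul a b ha hb =>
    intro x
    rw [map_mul, Module.End.mul_apply, hb, ha]
    simp only [mul_smul]
  | hadd a b ha hb =>
    intro x
    rw [map_add, LinearMap.add_apply, ha, hb]
    simp only [Prod.mk_add_mk, add_zero, add_smul]
    rfl

theorem rep_mul_gen (u : ∀ j, N j) (hu : ∀ j t, D.quad.lin (D.l j t) • u j = 0)
    (b : D.quad.Alg) (j : Fin D.m) :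
    rep u hu (b * D.quad.gen j) (1, 0) = (0, fun i => if j = i then b • u i else 0) := by
  rw [map_mul, Module.End.mul_apply, rep_gen, act_apply]
  simp only [Pi.zero_apply, smul_zero, zero_add, one_smul]
  rw [rep_apply_zero]
  simp only [smul_ite, smul_zero]

theorem smul_eq_zero_of_sum (u : ∀ j, N j) (hu : ∀ j t, D.quad.lin (D.l j t) • u j = 0)
    (b : Fin D.m → D.quad.Alg) (hb : ∑ j, b j * D.quad.gen j = 0) (i : Fin D.m) :
    b i • u i = 0 := by
  have h := congrArg (fun a => (rep u hu a (1, 0)).2 i) hb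
  simp only [map_sum, LinearMap.sum_apply, rep_mul_gen, Prod.snd_sum, Finset.sum_apply,
    Finset.sum_ite_eq', Finset.mem_univ, if_true, map_zero, LinearMap.zero_apply] at h
  exact h

end model

/-- The left ideal generated by the linear forms killing `x_j`. -/
noncomputable def ann (j : Fin D.m) : Submodule D.quad.Alg D.quad.Alg :=
  Submodule.span D.quad.Alg (Set.range fun t => D.quad.lin (D.l j t))

/-- The augmentation ideal is the direct sum of the left ideals generated by the `x_j`, and the
annihilator of `x_j` is the left ideal `ann j`. -/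
theorem mem_ann_of_sum (b : Fin D.m → D.quad.Alg) (hb : ∑ j, b j * D.quad.gen j = 0)
    (i : Fin D.m) : b i ∈ D.ann i := by
  have h := smul_eq_zero_of_sum (D := D) (N := fun j => D.quad.Alg ⧸ D.ann j)
    (fun j => Submodule.Quotient.mk 1) (by
      intro j t
      rw [← Submodule.Quotient.mk_smul, Submodule.Quotient.mk_eq_zero, smul_eq_mul, mul_one]
      exact Submodule.subset_span ⟨t, rfl⟩) b hb i
  rw [← Submodule.Quotient.mk_smul, Submodule.Quotient.mk_eq_zero, smul_eq_mul, mul_one] at h
  exact h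

theorem mem_ann_iff (j : Fin D.m) (b : D.quad.Alg) :
    b ∈ D.ann j ↔ ∃ c : Fin (D.s j) → D.quad.Alg, ∑ t, c t * D.quad.lin (D.l j t) = b := by
  rw [ann, Submodule.mem_span_range_iff_exists_fun]
  rfl

theorem mul_gen_of_mem {j : Fin D.m} {b : D.quad.Alg} (hb : b ∈ D.ann j) :
    b * D.quad.gen j = 0 := by
  obtain ⟨c, rfl⟩ := (D.mem_ann_iff j b).1 hb
  rw [Finset.sum_mul]
  exact Finset.sum_eq_zero fun t _ => by rw [mul_assoc, D.mul_gen, mul_zero]

end OSData

/-- The augmentation ideal is generated by the generators, as a left ideal. -/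
theorem exists_sum_gen (Q : QuadData k) (a : Q.Alg) (ha : Q.aug a = 0) :
    ∃ b : Fin Q.m → Q.Alg, a = ∑ j, b j * Q.gen j := by
  have h : ∀ a : Q.Alg, ∃ b : Fin Q.m → Q.Alg,
      a = algebraMap k Q.Alg (Q.aug a) + ∑ j, b j * Q.gen j := by
    intro a
    induction a using Q.alg_induction with
    | hr r => exact ⟨0, by simp⟩
    | hg i =>
      refine ⟨Pi.single i 1, ?_⟩
      rw [QuadData.aug, QuadData.lift_gen, map_zero, zero_add]
      simp [Pi.single_apply]
    | hmul a b ha hb =>
      obtain ⟨c, hc⟩ := ha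
      obtain ⟨d, hd⟩ := hb
      refine ⟨fun j => a * d j + Q.aug b • c j, ?_⟩
      have h1 : a * b = a * algebraMap k Q.Alg (Q.aug b) + ∑ j, a * d j * Q.gen j := by
        conv_lhs => rw [hd]
        rw [mul_add, Finset.mul_sum]
        simp only [mul_assoc]
      refine h1.trans ?_
      have h2 : a * algebraMap k Q.Alg (Q.aug b) =
          algebraMap k Q.Alg (Q.aug (a * b)) + ∑ j, (Q.aug b • c j) * Q.gen j := by
        conv_lhs => rw [hc]
        rw [add_mul, ← map_mul (algebraMap k Q.Alg), ← map_mul Q.aug, Finset.sum_mul]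
        refine congrArg (fun z => algebraMap k Q.Alg (Q.aug (a * b)) + z) ?_
        refine Finset.sum_congr rfl fun j _ => ?_
        rw [← Algebra.commutes, ← mul_assoc, Algebra.smul_def]
      rw [h2, add_assoc, ← Finset.sum_add_distrib]
      refine congrArg (fun z => algebraMap k Q.Alg (Q.aug (a * b)) + z) ?_
      refine Finset.sum_congr rfl fun j _ => ?_
      rw [add_mul, add_comm]
    | hadd a b ha hb =>
      obtain ⟨c, hc⟩ := ha
      obtain ⟨d, hd⟩ := hb
      refine ⟨c + d, ?_⟩
      conv_lhs => rw [hc, hd]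
      rw [map_add, map_add]
      simp only [Pi.add_apply, add_mul, Finset.sum_add_distrib]
      abel
  obtain ⟨b, hb⟩ := h a
  rw [ha, map_zero, zero_add] at hb
  exact ⟨b, hb⟩

theorem aug_eq_zero_of_degOne {Q : QuadData k} {x : Q.Alg} (hx : x ∈ Q.degOne) : Q.aug x = 0 := by
  induction hx using Submodule.span_induction with
  | mem x h => obtain ⟨i, rfl⟩ := h; rw [QuadData.aug, QuadData.lift_gen]
  | zero => exact map_zero _
  | add x y _ _ hx hy => rw [map_add, hx, hy, add_zero]
  | smul a x _ hx => rw [map_smul, hx, smul_zero]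

namespace OSData

variable (D : OSData k)

/-- The first differential. -/
noncomputable def D0 : Matrix (Fin D.m) (Fin 1) D.quad.Alg := fun i _ => D.quad.gen i

/-- The second differential. -/
noncomputable def D1 : Matrix (Σ j, Fin (D.s j)) (Fin D.m) D.quad.Alg :=
  fun p j => if p.1 = j then D.quad.lin (D.l p.1 p.2) else 0

theorem vecMul_D0 (v : Fin D.m → D.quad.Alg) : v ᵥ* D.D0 = fun _ => ∑ i, v i * D.quad.gen i := rfl

theorem vecMul_D1 (w : (Σ j, Fin (D.s j)) → D.quad.Alg) (j : Fin D.m) :
    (w ᵥ* D.D1) j = ∑ t, w ⟨j, t⟩ * D.quad.lin (D.l j t) := by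
  change ∑ p : (Σ j, Fin (D.s j)), w p * D.D1 p j = _
  rw [Fintype.sum_sigma]
  rw [Finset.sum_eq_single j]
  · simp [D1]
  · intro i _ hi
    refine Finset.sum_eq_zero fun t _ => ?_
    simp [D1, hi]
  · simp

theorem exact_D0 (v : Fin 1 → D.quad.Alg) :
    (∀ a, D.quad.aug (v a) = 0) ↔ ∃ w, w ᵥ* D.D0 = v := by
  constructor
  · intro h
    obtain ⟨b, hb⟩ := exists_sum_gen D.quad (v 0) (h 0)
    refine ⟨b, funext fun a => ?_⟩
    rw [vecMul_D0, Subsingleton.elim a 0, hb]
  · rintro ⟨w, rfl⟩ a
    rw [vecMul_D0]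
    simp only [map_sum, map_mul]
    refine Finset.sum_eq_zero fun i _ => ?_
    rw [aug_eq_zero_of_degOne (D.quad.gen_mem i), mul_zero]

theorem exact_D1 (v : Fin D.m → D.quad.Alg) : v ᵥ* D.D0 = 0 ↔ ∃ w, w ᵥ* D.D1 = v := by
  constructor
  · intro h
    have h' : ∑ i, v i * D.quad.gen i = 0 := congrFun h 0
    have hm := D.mem_ann_of_sum v h'
    choose c hc using fun j => (D.mem_ann_iff j (v j)).1 (hm j)
    refine ⟨fun p => c p.1 p.2, funext fun j => ?_⟩
    rw [vecMul_D1]
    exact hc j
  · rintro ⟨w, rfl⟩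
    rw [vecMul_D0]
    refine funext fun _ => ?_
    refine Finset.sum_eq_zero fun j _ => ?_
    rw [vecMul_D1]
    exact D.mul_gen_of_mem ((D.mem_ann_iff j _).2 ⟨fun t => w ⟨j, t⟩, rfl⟩)

end OSData

end Pool.Agent.TH884.Kz
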