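import Pool.Agent.TH884.Kz.Example

/-!
The linear resolution of the example.
-/

namespace Pool.Agent.TH884.Kz.Example

open Matrix

universe u

variable {k : Type u} [Field k]

/-- `Fin 4` inside `Fin 7`. -/
def up (t : Fin 4) : Fin 7 := Fin.castLE (by norm_num) t

theorem free (t : Fin 4) {p r : A k} (h : p * rel k t 0 + r * rel k t 1 = 0) :
    p = 0 ∧ r = 0 := by
  fin_cases t
  · exact free0 (by simpa [rel] using h)
  · exact free1 (by simpa [rel] using h)
  · exact free0 (by simpa [rel] using h)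
  · exact free1 (by simpa [rel] using h)

theorem mem_up (t : Fin 4) (b : A k) : b ∈ (data k).ann (up t) ↔
    ∃ p q : A k, p * rel k t 0 + q * rel k t 1 = b := by
  fin_cases t
  · refine (mem0 b).trans ?_
    simp [rel]
  · refine (mem1 b).trans ?_
    simp [rel]
  · refine (mem2 b).trans ?_
    simp [rel]
  · refine (mem3 b).trans ?_
    simp [rel]

theorem rel_mul (t : Fin 4) (y : Fin 2) : rel k t y * x k (up t) = 0 := by
  refine (data k).mul_gen_of_mem ((mem_up t _).2 ?_)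
  fin_cases y
  · exact ⟨1, 0, by simp⟩
  · exact ⟨0, 1, by simp⟩

theorem rel_mem (t : Fin 4) (y : Fin 2) : rel k t y ∈ (data k).quad.degOne := by
  rw [← form_lt]
  exact QuadData.lin_mem _ _

/-- The rows of the third differential. -/
abbrev Rows := Fin 2 × Fin 4 × Fin 2

/-- The relations. -/
abbrev Rels := Σ j : Fin 7, Fin (sz j)

/-- The third differential. -/
noncomputable def D2 : Matrix Rows Rels (A k) := fun r p =>
  if (p.1 : ℕ) = 5 + r.1 ∧ (p.2 : ℕ) = r.2.1 then rel k r.2.1 r.2.2 else 0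

theorem vecMul_D2_of (w : Rows → A k) (a : Fin 2) (t : Fin 4) (p : Rels) (h1 : (p.1 : ℕ) = 5 + a)
    (h2 : (p.2 : ℕ) = t) : (w ᵥ* D2) p = w (a, t, 0) * rel k t 0 + w (a, t, 1) * rel k t 1 := by
  change ∑ r : Fin 2 × Fin 4 × Fin 2, w r * D2 r p = _
  rw [Fintype.sum_prod_type, Finset.sum_eq_single a, Fintype.sum_prod_type,
    Finset.sum_eq_single t, Fin.sum_univ_two]
  · simp [D2, h1, h2]
  · intro b _ hb
    refine Finset.sum_eq_zero fun y _ => ?_
    have : ¬ ((p.1 : ℕ) = 5 + a ∧ (p.2 : ℕ) = b) := fun h => hb (Fin.ext (by omega))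
    simp [D2, this]
  · simp
  · intro b _ hb
    refine Finset.sum_eq_zero fun y _ => ?_
    have : ¬ ((p.1 : ℕ) = 5 + b ∧ (p.2 : ℕ) = y.1) := fun h => hb (Fin.ext (by omega))
    simp [D2, this]
  · simp

theorem vecMul_D2_zero (w : Rows → A k) (p : Rels)
    (h : ∀ (a : Fin 2) (t : Fin 4), ¬ ((p.1 : ℕ) = 5 + a ∧ (p.2 : ℕ) = t)) : (w ᵥ* D2) p = 0 := by
  change ∑ r : Fin 2 × Fin 4 × Fin 2, w r * D2 r p = _
  refine Finset.sum_eq_zero fun r _ => ?_
  rw [D2, if_neg (h _ _), mul_zero]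

theorem exact_D3 (v : Rows → A k) (h : v ᵥ* D2 = 0) : v = 0 := by
  funext r
  obtain ⟨a, t, y⟩ := r
  have h5 : ∃ p : Rels, (p.1 : ℕ) = 5 + a ∧ (p.2 : ℕ) = t := by
    fin_cases a
    · exact ⟨⟨5, (t : Fin 4)⟩, rfl, rfl⟩
    · exact ⟨⟨6, (Fin.castLE (by norm_num) t : Fin 5)⟩, rfl, rfl⟩
  obtain ⟨p, h1, h2⟩ := h5
  have := vecMul_D2_of v a t p h1 h2
  rw [h] at this
  have h3 := free t this.symm
  fin_cases y
  · exact h3.1
  · exact h3.2

theorem lin5 (t : Fin 4) : (data k).quad.lin ((data k).l 5 (t : Fin 4)) = x k (up t) :=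
  form_ge k (j := 5) (t := (t : ℕ)) le_rfl (lt_of_lt_of_le (Fin.isLt (n := 4) t) (by norm_num))

theorem lin6 (t : Fin 5) : (data k).quad.lin ((data k).l 6 (t : Fin 5)) =
    x k (Fin.castLE (by norm_num) t) :=
  form_ge k (j := 6) (t := (t : ℕ)) (by norm_num)
    (lt_of_lt_of_le (Fin.isLt (n := 5) t) (by norm_num))

theorem sum5 (c : Fin 4 → A k)
    (h : ∑ t : Fin 4, c t * (data k).quad.lin ((data k).l 5 (t : Fin 4)) = 0) (t : Fin 4) :
    c t ∈ (data k).ann (up t) := by
  have e := key ![c 0, c 1, c 2, c 3, 0, 0, 0] (by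
    simp only [Matrix.cons_val, zero_mul, add_zero]
    refine Eq.trans ?_ h
    rw [Fin.sum_univ_four, lin5, lin5, lin5, lin5]
    rfl)
  fin_cases t
  · exact e 0
  · exact e 1
  · exact e 2
  · exact e 3

theorem sum6 (c : Fin 5 → A k)
    (h : ∑ t : Fin 5, c t * (data k).quad.lin ((data k).l 6 (t : Fin 5)) = 0) :
    (∀ t : Fin 4, c (Fin.castLE (by norm_num) t) ∈ (data k).ann (up t)) ∧ c 4 = 0 := by
  have e := key ![c 0, c 1, c 2, c 3, c 4, 0, 0] (by
    simp only [Matrix.cons_val, zero_mul, add_zero]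
    refine Eq.trans ?_ h
    rw [Fin.sum_univ_five, lin6, lin6, lin6, lin6, lin6]
    rfl)
  refine ⟨fun t => ?_, (mem4 _).1 (e 4)⟩
  fin_cases t
  · exact e 0
  · exact e 1
  · exact e 2
  · exact e 3

theorem sumlt (s : Fin 4) (c : Fin 2 → A k) (h : ∑ t : Fin 2, c t * form k s t = 0) (t : Fin 2) :
    c t = 0 := by
  rw [Fin.sum_univ_two, form_lt, form_lt] at h
  have := free s h
  fin_cases t
  · exact this.1
  · exact this.2

theorem exact_D2 (v : Rels → A k) : v ᵥ* (data k).D1 = 0 ↔ ∃ w, w ᵥ* D2 = v := by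
  constructor
  · intro h
    have hs : ∀ j : Fin 7, ∑ t, v ⟨j, t⟩ * (data k).quad.lin ((data k).l j t) = 0 := by
      intro j
      have := congrFun h j
      rw [(data k).vecMul_D1] at this
      exact this
    have h5 : ∀ t : Fin 4, ∃ p q : A k, p * rel k t 0 + q * rel k t 1 = v ⟨5, (t : Fin 4)⟩ :=
      fun t => (mem_up t _).1 (sum5 (fun t => v ⟨5, (t : Fin 4)⟩) (hs 5) t)
    have h6 := sum6 (fun t => v ⟨6, (t : Fin 5)⟩) (hs 6)
    have h6' : ∀ t : Fin 4, ∃ p q : A k, p * rel k t 0 + q * rel k t 1 =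
        v ⟨6, (Fin.castLE (by norm_num) t : Fin 5)⟩ := fun t => (mem_up t _).1 (h6.1 t)
    choose p5 q5 e5 using h5
    choose p6 q6 e6 using h6'
    refine ⟨fun r => if r.1 = 0 then (if r.2.2 = 0 then p5 r.2.1 else q5 r.2.1) else
      (if r.2.2 = 0 then p6 r.2.1 else q6 r.2.1), ?_⟩
    funext p
    obtain ⟨j, t⟩ := p
    fin_cases j
    · rw [vecMul_D2_zero _ _ (by simp)]
      exact (sumlt 0 (fun t => v ⟨0, (t : Fin 2)⟩) (hs 0) t).symm
    · rw [vecMul_D2_zero _ _ (by simp)]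
      exact (sumlt 1 (fun t => v ⟨1, (t : Fin 2)⟩) (hs 1) t).symm
    · rw [vecMul_D2_zero _ _ (by simp)]
      exact (sumlt 2 (fun t => v ⟨2, (t : Fin 2)⟩) (hs 2) t).symm
    · rw [vecMul_D2_zero _ _ (by simp)]
      exact (sumlt 3 (fun t => v ⟨3, (t : Fin 2)⟩) (hs 3) t).symm
    · exact Fin.elim0 t
    · rw [vecMul_D2_of _ 0 t _ rfl rfl]
      simpa using e5 t
    · by_cases h4 : (t : ℕ) = 4
      · rw [vecMul_D2_zero _ _ (by simp; omega)]
        have : t = (4 : Fin 5) := Fin.ext h4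
        rw [this]
        exact h6.2.symm
      · have hlt : (t : ℕ) < 4 := by
          have := Fin.isLt (n := 5) t
          omega
        rw [vecMul_D2_of _ 1 ⟨t, hlt⟩ _ rfl rfl]
        refine Eq.trans ?_ (e6 ⟨t, hlt⟩)
        simp
  · rintro ⟨w, rfl⟩
    funext j
    rw [(data k).vecMul_D1]
    refine Finset.sum_eq_zero fun t _ => ?_
    by_cases h : ∃ (a : Fin 2) (s : Fin 4), (j : ℕ) = 5 + a ∧ (t : ℕ) = s
    · obtain ⟨a, s, h1, h2⟩ := h
      rw [vecMul_D2_of w a s ⟨j, t⟩ h1 h2]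
      have h3 : (data k).quad.lin ((data k).l j t) = x k (up s) := by
        rw [lin_eq, form_ge k (j := (j : ℕ)) (t := (t : ℕ)) (by omega) (by omega)]
        congr 1
        exact Fin.ext h2
      rw [h3, add_mul, mul_assoc, mul_assoc, rel_mul, rel_mul, mul_zero, mul_zero, add_zero]
    · push Not at h
      rw [vecMul_D2_zero w ⟨j, t⟩ (fun a s hh => h a s hh.1 hh.2), zero_mul]

theorem D0_mem (a : Fin 7) (b : Fin 1) : (data k).D0 a b ∈ (data k).quad.degOne :=
  QuadData.gen_mem _ _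

theorem D1_mem (a : Rels) (b : Fin 7) : (data k).D1 a b ∈ (data k).quad.degOne := by
  unfold OSData.D1
  split_ifs
  · exact QuadData.lin_mem _ _
  · exact Submodule.zero_mem _

theorem D2_mem (a : Rows) (b : Rels) : (D2 a b : A k) ∈ (data k).quad.degOne := by
  unfold D2
  split_ifs
  · exact rel_mem _ _
  · exact Submodule.zero_mem _

variable (k)

/-- The linear resolution. -/
noncomputable def res : LinearResolution (data k).quad :=
  LinearResolution.mk3 (data k).quad (a₀ := Fin 1) (a₁ := Fin 7) (a₂ := Rels) (a₃ := Rows)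
    (data k).D0 (data k).D1 D2 D0_mem D1_mem D2_mem (by simp) (data k).exact_D0
    (data k).exact_D1 exact_D2 exact_D3

theorem card_one : Fintype.card ((res k).ι 1) = 7 := by
  change Fintype.card (Fin 7) = 7
  simp

theorem card_two : Fintype.card ((res k).ι 2) = 17 := by
  change Fintype.card Rels = 17
  rfl

theorem card_three : Fintype.card ((res k).ι 3) = 16 := by
  change Fintype.card Rows = 16
  simp [Rows]

theorem card_add_four (n : ℕ) : Fintype.card ((res k).ι (n + 4)) = 0 := by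
  change Fintype.card PEmpty = 0
  simp

end Pool.Agent.TH884.Kz.Example
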